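import Pool.Agent.Helper25.LS.Defs

set_option autoImplicit false

open Filter Topology Module

noncomputable section

namespace Pool.Agent.Helper25.LS

theorem op : S_OP := by
  intro X Z _ _ _ _ U A K K' hK hKK' h
  by_contra hcon
  rw [← Ultrafilter.eventually_not] at hcon
  set c : ℝ := (K + K') / 2 with hc
  have hKc : K < c := by rw [hc]; linarith
  have hcK : c < K' := by rw [hc]; linarith
  have hex : ∀ j, ∃ x : X j, ‖x‖ ≤ 1 ∧ (¬ ‖A j‖ ≤ K' → c < ‖A j x‖) := by
    intro j
    by_cases hj : ‖A j‖ ≤ K'
    · exact ⟨0, by simp, fun hn => absurd hj hn⟩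
    · push Not at hj
      have hcA : c < ‖A j‖ := hcK.trans hj
      have hc0 : 0 ≤ c := hK.trans hKc.le
      by_contra hno
      push Not at hno
      have hle : ‖A j‖ ≤ c := by
        apply ContinuousLinearMap.opNorm_le_of_unit_norm hc0
        intro x hx
        exact (hno x (le_of_eq hx)).2
      linarith
  choose x hx1 hx2 using hex
  have h1 := h x hx1 (c - K) (by linarith)
  obtain ⟨j, hj1, hj2⟩ := (h1.and hcon).exists
  have := hx2 j hj2
  linarith

end Pool.Agent.Helper25.LS
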