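import Pool.Agent.Helper25.LS.Defs

set_option autoImplicit false

open Filter Topology Module

noncomputable section

namespace Pool.Agent.Helper25.LS

theorem rescale {X : Type} [NormedAddCommGroup X] [NormedSpace ℂ X] (f : X →L[ℂ] ℂ) (x : X) :
    ∃ (f' : X →L[ℂ] ℂ) (x' : X), ‖f'‖ ≤ Real.sqrt (‖f‖ * ‖x‖) ∧ ‖x'‖ ≤ Real.sqrt (‖f‖ * ‖x‖) ∧
      (∀ v, f' v • x' = f v • x) ∧ f' x' = f x := by
  by_cases h0 : ‖f‖ * ‖x‖ = 0
  · refine ⟨0, 0, by rw [norm_zero]; positivity, by rw [norm_zero]; positivity, ?_, ?_⟩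
    · intro v
      rcases mul_eq_zero.1 h0 with h | h
      · rw [norm_eq_zero] at h
        simp [h]
      · rw [norm_eq_zero] at h
        simp [h]
    · rcases mul_eq_zero.1 h0 with h | h
      · rw [norm_eq_zero] at h
        simp [h]
      · rw [norm_eq_zero] at h
        simp [h]
  · have hf : 0 < ‖f‖ := by
      rcases (norm_nonneg f).eq_or_lt with h | h
      · exact absurd (by rw [← h, zero_mul]) h0
      · exact h
    have hx : 0 < ‖x‖ := by
      rcases (norm_nonneg x).eq_or_lt with h | h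
      · exact absurd (by rw [← h, mul_zero]) h0
      · exact h
    set c : ℝ := Real.sqrt (‖x‖ / ‖f‖) with hc
    have hcpos : 0 < c := Real.sqrt_pos.2 (div_pos hx hf)
    have hcC : (c : ℂ) ≠ 0 := by exact_mod_cast hcpos.ne'
    have e1 : c * ‖f‖ = Real.sqrt (‖f‖ * ‖x‖) := by
      have : c * c = ‖x‖ / ‖f‖ := Real.mul_self_sqrt (by positivity)
      have h5 : (c * ‖f‖) * (c * ‖f‖) = ‖f‖ * ‖x‖ := by
        calc (c * ‖f‖) * (c * ‖f‖) = (c * c) * (‖f‖ * ‖f‖) := by ring
          _ = ‖f‖ * ‖x‖ := by rw [this]; field_simp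
      rw [← h5, Real.sqrt_mul_self (by positivity)]
    have e2 : c⁻¹ * ‖x‖ = Real.sqrt (‖f‖ * ‖x‖) := by
      rw [← e1]
      have : c * c = ‖x‖ / ‖f‖ := Real.mul_self_sqrt (by positivity)
      have h3 : ‖x‖ = c * c * ‖f‖ := by rw [this]; field_simp
      rw [h3]
      field_simp
    refine ⟨(c : ℂ) • f, (c : ℂ)⁻¹ • x, ?_, ?_, ?_, ?_⟩
    · rw [norm_smul, Complex.norm_real, Real.norm_of_nonneg hcpos.le, e1]
    · rw [norm_smul, norm_inv, Complex.norm_real, Real.norm_of_nonneg hcpos.le, e2]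
    · intro v
      rw [_root_.smul_apply, smul_eq_mul, smul_smul]
      congr 1
      field_simp
    · rw [_root_.smul_apply, map_smul, smul_smul, mul_inv_cancel₀ hcC, one_smul]

theorem ul (hUP : S_UP) (hEN : S_EN) (hHI : S_HI) (hOT : S_OT) (hEI : S_EI) (hTC : S_TC)
    (hHL : S_HL) (hMT : S_MT) (hMC : S_MC) (hNU : S_NU) : S_UL := by
  intro C
  by_contra hcon
  push Not at hcon
  choose X i1 i2 i3 hD f x hs hR ht hT hge using hcon
  have hres := fun j i => rescale (f j i) (x j i)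
  choose f' x' hf' hx' hfx hfx' using hres
  let P : Rep X :=
    { N := C
      f := f'
      x := x'
      s := fun j i => Real.sqrt (‖f j i‖ * ‖x j i‖)
      R := C
      hf := hf'
      hx := hx'
      hs := by
        intro j
        have : (fun i => Real.sqrt (‖f j i‖ * ‖x j i‖) ^ 2) = fun i => ‖f j i‖ * ‖x j i‖ := by
          funext i
          exact Real.sq_sqrt (by positivity)
        rw [this]
        exact hs j
      hR := by
        intro j
        have : (fun i => Real.sqrt (‖f j i‖ * ‖x j i‖) ^ 2) = fun i => ‖f j i‖ * ‖x j i‖ := by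
          funext i
          exact Real.sq_sqrt (by positivity)
        rw [this]
        exact hR j
      ht := by
        intro j
        have : (fun i => Real.sqrt (‖f j (i + C)‖ * ‖x j (i + C)‖) ^ 2) =
            fun i => ‖f j (i + C)‖ * ‖x j (i + C)‖ := by
          funext i
          exact Real.sq_sqrt (by positivity)
        rw [this]
        exact ht j }
  let U : Ultrafilter ℕ := Filter.hyperfilter ℕ
  have hU : (U : Filter ℕ) ≤ atTop := by
    rw [← Nat.cofinite_eq_atTop]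
    exact Filter.hyperfilter_le_cofinite
  obtain ⟨Y, j1, j2, j3, ⟨D⟩⟩ := hUP X U
  obtain ⟨Nn, hN1, hN2, hN3, hN4⟩ := hEN X U Y D C hU hD
  obtain ⟨H, k1, k2, k3, Φ, hΦ⟩ := hHI Y C Nn hN1 hN2 hN3 hN4
  have hΦ' : ∀ y, ‖y‖ ≤ ‖Φ y‖ ∧ ‖Φ y‖ ≤ C * ‖y‖ := by
    intro y
    rw [hΦ y]
    exact hN1 y
  have hA := fun j => hNU (X j) (f j) (x j) (hs j)
  choose A hA1 hA2 hA3 using hA
  have hAM : ∀ j, ‖A j‖ ≤ (C : ℝ) := fun j => (hA2 j).trans (hR j)
  obtain ⟨T, hTT⟩ := hOT X U Y D A C hAM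
  have hTP : ∀ v w : lp X ⊤, (∀ j, w j = ∑' i, P.f j i (v j) • P.x j i) →
      T (D.π v) = D.π w := by
    intro v w hvw
    apply hTT v w
    intro j
    rw [hvw j, hA1 j]
    exact tsum_congr fun i => hfx j i (v j)
  set TH : H →L[ℂ] H := (Φ : Y →L[ℂ] H) ∘L T ∘L (Φ.symm : H →L[ℂ] Y) with hTH
  have hTail : TrTail H TH := hMT X U Y D H Φ C P T hΦ' hTP
  have hcH : IsCompactOperator TH := hTC H TH hTail
  have hcY : IsCompactOperator T := by
    have h1 : IsCompactOperator ((Φ.symm : H →L[ℂ] Y) ∘L (TH ∘L (Φ : Y →L[ℂ] H))) := by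
      exact (hcH.comp_clm (Φ : Y →L[ℂ] H)).clm_comp (Φ.symm : H →L[ℂ] Y)
    have h2 : (Φ.symm : H →L[ℂ] Y) ∘L (TH ∘L (Φ : Y →L[ℂ] H)) = T := by
      ext y
      simp [hTH]
    rwa [h2] at h1
  have hNY : NoEig Y T := by
    refine hEI X U Y D A C T hAM hTT hA3 ?_ hcY
    intro j
    exact hT j (A j) (hA1 j)
  have hNH : NoEig H TH := by
    intro μ v hμ hv
    have h1 : T (Φ.symm v) = μ • Φ.symm v := by
      have h2 : Φ (T (Φ.symm v)) = μ • v := hv
      calc T (Φ.symm v) = Φ.symm (Φ (T (Φ.symm v))) := by simp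
        _ = Φ.symm (μ • v) := by rw [h2]
        _ = μ • Φ.symm v := by simp
    have h3 := hNY μ _ hμ h1
    have h4 : Φ (Φ.symm v) = 0 := by rw [h3, map_zero]
    simpa using h4
  obtain ⟨E1, hE1, h1⟩ := hHL H TH hTail hNH (1 / 4) (by norm_num)
  have hge' : ∀ j, 1 / 2 ≤ ‖∑ i ∈ Finset.range P.N, P.f j i (P.x j i)‖ := by
    intro j
    have : ∑ i ∈ Finset.range P.N, P.f j i (P.x j i) = ∑ i ∈ Finset.range C, f j i (x j i) :=
      Finset.sum_congr rfl fun i _ => hfx' j i
    rw [this]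
    exact hge j
  obtain ⟨E2, hE2, h2⟩ := hMC X U Y D H Φ C P T hΦ' hTP hge'
  have hfd : FiniteDimensional ℂ (E1 ⊔ E2 : Submodule ℂ H) := Submodule.finiteDimensional_sup _ _
  set E : Submodule ℂ H := E1 ⊔ E2 with hE
  let b := stdOrthonormalBasis ℂ E
  set e : Fin (finrank ℂ E) → H := fun k => (b k : H) with he
  have horth : Orthonormal ℂ e := by
    have := b.orthonormal
    exact this.comp_linearIsometry E.subtypeₗᵢ
  have hspan : Submodule.span ℂ (Set.range e) = E := by
    have h5 : Set.range e = E.subtype '' Set.range b := by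
      rw [← Set.range_comp]
      rfl
    have h8 : Submodule.span ℂ (Set.range b) = ⊤ := by
      have := b.toBasis.span_eq
      simpa using this
    rw [h5, Submodule.span_image, h8, Submodule.map_top, Submodule.range_subtype]
  have h6 := h1 _ e horth (by rw [hspan]; exact le_sup_left)
  have h7 := h2 _ e horth (by rw [hspan]; exact le_sup_right)
  linarith

end Pool.Agent.Helper25.LS
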