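import Mathlib

/-!
# Slow growth of the Euclidean distances implies the Lidskii property (MP_03bcbb_an)
Definitions and goals of project LS.
-/

set_option autoImplicit false

open Filter Topology Module

noncomputable section

namespace Pool.Agent.Helper25.LS

/-- the subspace `E` of `X` is `C`-isomorphic to a finite-dimensional Hilbert space -/
def Euc (X : Type) [NormedAddCommGroup X] [NormedSpace ℂ X] (E : Submodule ℂ X) (C : ℝ) : Prop :=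
  ∃ (m : ℕ) (u : E ≃L[ℂ] EuclideanSpace ℂ (Fin m)),
    ‖(u : E →L[ℂ] EuclideanSpace ℂ (Fin m))‖ *
      ‖(u.symm : EuclideanSpace ℂ (Fin m) →L[ℂ] E)‖ ≤ C

/-- all subspaces of dimension at most `n` are `C`-isomorphic to Hilbert spaces -/
def DLe (X : Type) [NormedAddCommGroup X] [NormedSpace ℂ X] (n : ℕ) (C : ℝ) : Prop :=
  ∀ E : Submodule ℂ X, FiniteDimensional ℂ E → finrank ℂ E ≤ n → Euc X E C

/-- `Y` is the ultraproduct of the spaces `X j` along `U` -/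
structure Ult (X : ℕ → Type) [∀ j, NormedAddCommGroup (X j)] [∀ j, NormedSpace ℂ (X j)]
    (U : Ultrafilter ℕ) (Y : Type) [NormedAddCommGroup Y] [NormedSpace ℂ Y] where
  π : lp X ⊤ →ₗ[ℂ] Y
  surj : Function.Surjective π
  lim : ∀ x : lp X ⊤, Tendsto (fun j => ‖x j‖) (U : Filter ℕ) (𝓝 ‖π x‖)

/-- UP: ultraproducts exist -/
def S_UP : Prop :=
  ∀ (X : ℕ → Type) [∀ j, NormedAddCommGroup (X j)] [∀ j, NormedSpace ℂ (X j)]
    [∀ j, CompleteSpace (X j)] (U : Ultrafilter ℕ),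
    ∃ (Y : Type) (_ : NormedAddCommGroup Y) (_ : NormedSpace ℂ Y) (_ : CompleteSpace Y),
      Nonempty (Ult X U Y)

/-- LV: lifting of vectors with control of the norm -/
def S_LV : Prop :=
  ∀ (X : ℕ → Type) [∀ j, NormedAddCommGroup (X j)] [∀ j, NormedSpace ℂ (X j)]
    (U : Ultrafilter ℕ) (Y : Type) [NormedAddCommGroup Y] [NormedSpace ℂ Y] (D : Ult X U Y)
    (y : Y), ∃ x : lp X ⊤, D.π x = y ∧ ∀ j, ‖x j‖ ≤ ‖y‖

/-- EN: the ultraproduct carries an equivalent norm satisfying the parallelogram law -/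
def S_EN : Prop :=
  ∀ (X : ℕ → Type) [∀ j, NormedAddCommGroup (X j)] [∀ j, NormedSpace ℂ (X j)]
    (U : Ultrafilter ℕ) (Y : Type) [NormedAddCommGroup Y] [NormedSpace ℂ Y] (_ : Ult X U Y)
    (C : ℝ), ((U : Filter ℕ) ≤ atTop) → (∀ j, DLe (X j) j C) →
    ∃ N : Y → ℝ, (∀ y, ‖y‖ ≤ N y ∧ N y ≤ C * ‖y‖) ∧ (∀ y z, N (y + z) ≤ N y + N z) ∧
      (∀ (a : ℂ) y, N (a • y) = ‖a‖ * N y) ∧
      (∀ y z, N (y + z) * N (y + z) + N (y - z) * N (y - z) = 2 * (N y * N y + N z * N z))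

/-- HI: an equivalent norm with the parallelogram law gives an isomorphic Hilbert space -/
def S_HI : Prop :=
  ∀ (Y : Type) [NormedAddCommGroup Y] [NormedSpace ℂ Y] [CompleteSpace Y] (C : ℝ) (N : Y → ℝ),
    (∀ y, ‖y‖ ≤ N y ∧ N y ≤ C * ‖y‖) → (∀ y z, N (y + z) ≤ N y + N z) →
    (∀ (a : ℂ) y, N (a • y) = ‖a‖ * N y) →
    (∀ y z, N (y + z) * N (y + z) + N (y - z) * N (y - z) = 2 * (N y * N y + N z * N z)) →
    ∃ (H : Type) (_ : NormedAddCommGroup H) (_ : InnerProductSpace ℂ H) (_ : CompleteSpace H)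
      (Φ : Y ≃L[ℂ] H), ∀ y, ‖Φ y‖ = N y

/-- LF: every functional on the (Hilbertian) ultraproduct lifts, with control of the norm -/
def S_LF : Prop :=
  ∀ (X : ℕ → Type) [∀ j, NormedAddCommGroup (X j)] [∀ j, NormedSpace ℂ (X j)]
    (U : Ultrafilter ℕ) (Y : Type) [NormedAddCommGroup Y] [NormedSpace ℂ Y] (D : Ult X U Y)
    (H : Type) [NormedAddCommGroup H] [InnerProductSpace ℂ H] [CompleteSpace H]
    (_ : Y ≃L[ℂ] H) (h : Y →L[ℂ] ℂ),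
    ∃ hj : ∀ j, X j →L[ℂ] ℂ, (∀ j, ‖hj j‖ ≤ ‖h‖) ∧
      ∀ x : lp X ⊤, Tendsto (fun j => hj j (x j)) (U : Filter ℕ) (𝓝 (h (D.π x)))

/-- OP: pointwise asymptotic bounds along an ultrafilter are uniform -/
def S_OP : Prop :=
  ∀ (X Z : ℕ → Type) [∀ j, NormedAddCommGroup (X j)] [∀ j, NormedSpace ℂ (X j)]
    [∀ j, NormedAddCommGroup (Z j)] [∀ j, NormedSpace ℂ (Z j)] (U : Ultrafilter ℕ)
    (A : ∀ j, X j →L[ℂ] Z j) (K K' : ℝ), 0 ≤ K → K < K' →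
    (∀ x : (∀ j, X j), (∀ j, ‖x j‖ ≤ 1) → ∀ δ : ℝ, 0 < δ →
      ∀ᶠ j in (U : Filter ℕ), ‖A j (x j)‖ ≤ K + δ) →
    ∀ᶠ j in (U : Filter ℕ), ‖A j‖ ≤ K'

/-- FD: the same for linear maps on a fixed finite-dimensional space -/
def S_FD : Prop :=
  ∀ (E : Type) [NormedAddCommGroup E] [NormedSpace ℂ E] [FiniteDimensional ℂ E]
    (X : ℕ → Type) [∀ j, NormedAddCommGroup (X j)] [∀ j, NormedSpace ℂ (X j)]
    (U : Ultrafilter ℕ) (A : ∀ j, E →ₗ[ℂ] X j) (K K' : ℝ), 0 ≤ K → K < K' →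
    (∀ v : E, ∀ δ : ℝ, 0 < δ → ∀ᶠ j in (U : Filter ℕ), ‖A j v‖ ≤ K * ‖v‖ + δ) →
    ∀ᶠ j in (U : Filter ℕ), ∀ v, ‖A j v‖ ≤ K' * ‖v‖

/-- NO: finite norming sets of functionals for finite-dimensional subspaces -/
def S_NO : Prop :=
  ∀ (Y : Type) [NormedAddCommGroup Y] [NormedSpace ℂ Y] (E : Submodule ℂ Y)
    [FiniteDimensional ℂ E] (δ : ℝ), 0 < δ →
    ∃ (L : ℕ) (v : Fin L → (Y →L[ℂ] ℂ)), (∀ l, ‖v l‖ ≤ 1) ∧
      ∀ w ∈ E, ∃ l, (1 - δ) * ‖w‖ ≤ ‖v l w‖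

/-- SU: almost all of a bounded additive energy is carried by a finite-dimensional subspace -/
def S_SU : Prop :=
  ∀ (H : Type) [NormedAddCommGroup H] [InnerProductSpace ℂ H] (e : H → ℝ) (B : ℝ),
    (∀ u, 0 ≤ e u) →
    (∀ (m : ℕ) (u : Fin m → H), Orthonormal ℂ u → ∑ k, e (u k) ≤ B) →
    ∀ ε : ℝ, 0 < ε → ∃ E₀ : Submodule ℂ H, FiniteDimensional ℂ E₀ ∧
      ∀ (m : ℕ) (u : Fin m → H), Orthonormal ℂ u → (∀ k, u k ∈ E₀ᗮ) → ∑ k, e (u k) ≤ ε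

/-- the part of the trace norm of `T` outside a finite-dimensional subspace is small -/
def TrTail (H : Type) [NormedAddCommGroup H] [InnerProductSpace ℂ H] (T : H →L[ℂ] H) : Prop :=
  ∀ ε : ℝ, 0 < ε → ∃ E₀ : Submodule ℂ H, FiniteDimensional ℂ E₀ ∧
    ∀ (m : ℕ) (e u : Fin m → H), Orthonormal ℂ e → Orthonormal ℂ u → (∀ k, e k ∈ E₀ᗮ) →
      ∑ k, ‖inner ℂ (u k) (T (e k))‖ ≤ ε

/-- no nonzero eigenvalue -/
def NoEig (X : Type) [NormedAddCommGroup X] [NormedSpace ℂ X] (T : X →L[ℂ] X) : Prop :=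
  ∀ (μ : ℂ) (v : X), μ ≠ 0 → T v = μ • v → v = 0

/-- TC: the tail condition implies compactness -/
def S_TC : Prop :=
  ∀ (H : Type) [NormedAddCommGroup H] [InnerProductSpace ℂ H] [CompleteSpace H] (T : H →L[ℂ] H),
    TrTail H T → IsCompactOperator T

/-- the compression of `T` to the finite-dimensional subspace `E` -/
def comp (H : Type) [NormedAddCommGroup H] [InnerProductSpace ℂ H] (T : H →L[ℂ] H)
    (E : Submodule ℂ H) [FiniteDimensional ℂ E] : E →ₗ[ℂ] E :=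
  (E.orthogonalProjectionOnto : H →L[ℂ] E).toLinearMap ∘ₗ (T : H →ₗ[ℂ] H) ∘ₗ E.subtype

/-- SP: the eigenvalues of large compressions are small -/
def S_SP : Prop :=
  ∀ (H : Type) [NormedAddCommGroup H] [InnerProductSpace ℂ H] [CompleteSpace H] (T : H →L[ℂ] H),
    IsCompactOperator T → NoEig H T → ∀ r : ℝ, 0 < r →
    ∃ E₀ : Submodule ℂ H, FiniteDimensional ℂ E₀ ∧ ∀ (E : Submodule ℂ H)
      [FiniteDimensional ℂ E], E₀ ≤ E → ∀ (μ : ℂ) (v : E), r ≤ ‖μ‖ →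
        comp H T E v = μ • v → v = 0

/-- HA: Hadamard's determinant inequality -/
def S_HA : Prop :=
  ∀ (m : ℕ) (M : Matrix (Fin m) (Fin m) ℂ),
    ‖M.det‖ ≤ ∏ l, Real.sqrt (∑ k, ‖M k l‖ ^ 2)

/-- DB: bound for the determinant of a compression -/
def S_DB : Prop :=
  ∀ (H : Type) [NormedAddCommGroup H] [InnerProductSpace ℂ H] (T : H →L[ℂ] H)
    (E₀ E : Submodule ℂ H) [FiniteDimensional ℂ E] (ε : ℝ), 0 ≤ ε → E₀ ≤ E →
    (∀ (m : ℕ) (e u : Fin m → H), Orthonormal ℂ e → Orthonormal ℂ u → (∀ k, e k ∈ E₀ᗮ) →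
      ∑ k, ‖inner ℂ (u k) (T (e k))‖ ≤ ε) →
    ∀ z : ℂ, ‖LinearMap.det (LinearMap.id + z • comp H T E)‖ ≤
      (1 + ‖z‖ * ‖T‖) ^ (finrank ℂ E₀) * Real.exp (‖z‖ * ε)

/-- BC: the trace of a map without large eigenvalues is controlled by its determinant -/
def S_BC : Prop :=
  ∀ (V : Type) [AddCommGroup V] [Module ℂ V] [FiniteDimensional ℂ V] (A : V →ₗ[ℂ] V)
    (R B : ℝ), 0 < R → 0 < B →
    (∀ (μ : ℂ) (v : V), 1 ≤ R * ‖μ‖ → A v = μ • v → v = 0) →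
    (∀ z : ℂ, ‖z‖ ≤ R → ‖LinearMap.det (LinearMap.id + z • A)‖ ≤ Real.exp B) →
    ‖LinearMap.trace ℂ V A‖ ≤ 2 * B / R

/-- HL: traces of large compressions of an operator without nonzero eigenvalues are small -/
def S_HL : Prop :=
  ∀ (H : Type) [NormedAddCommGroup H] [InnerProductSpace ℂ H] [CompleteSpace H] (T : H →L[ℂ] H),
    TrTail H T → NoEig H T → ∀ ε : ℝ, 0 < ε →
    ∃ E₀ : Submodule ℂ H, FiniteDimensional ℂ E₀ ∧ ∀ (m : ℕ) (e : Fin m → H), Orthonormal ℂ e →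
      E₀ ≤ Submodule.span ℂ (Set.range e) → ‖∑ k, inner ℂ (e k) (T (e k))‖ ≤ ε

/-- OT: a bounded family of operators induces an operator on the ultraproduct -/
def S_OT : Prop :=
  ∀ (X : ℕ → Type) [∀ j, NormedAddCommGroup (X j)] [∀ j, NormedSpace ℂ (X j)]
    (U : Ultrafilter ℕ) (Y : Type) [NormedAddCommGroup Y] [NormedSpace ℂ Y] (D : Ult X U Y)
    (A : ∀ j, X j →L[ℂ] X j) (M : ℝ), (∀ j, ‖A j‖ ≤ M) →
    ∃ T : Y →L[ℂ] Y, ∀ v w : lp X ⊤, (∀ j, w j = A j (v j)) → T (D.π v) = D.π w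

/-- EI: operators without nonzero eigenvalues have ultraproducts without nonzero eigenvalues,
as soon as the ultraproduct is compact -/
def S_EI : Prop :=
  ∀ (X : ℕ → Type) [∀ j, NormedAddCommGroup (X j)] [∀ j, NormedSpace ℂ (X j)]
    [∀ j, CompleteSpace (X j)]
    (U : Ultrafilter ℕ) (Y : Type) [NormedAddCommGroup Y] [NormedSpace ℂ Y] [CompleteSpace Y]
    (D : Ult X U Y) (A : ∀ j, X j →L[ℂ] X j) (M : ℝ) (T : Y →L[ℂ] Y), (∀ j, ‖A j‖ ≤ M) →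
    (∀ v w : lp X ⊤, (∀ j, w j = A j (v j)) → T (D.π v) = D.π w) →
    (∀ j, IsCompactOperator (A j)) → (∀ j, NoEig (X j) (A j)) → IsCompactOperator T →
    NoEig Y T

/-- the data of the main estimate: nuclear representations with a uniform head and a small tail -/
structure Rep (X : ℕ → Type) [∀ j, NormedAddCommGroup (X j)] [∀ j, NormedSpace ℂ (X j)] where
  N : ℕ
  f : ∀ j, ℕ → (X j →L[ℂ] ℂ)
  x : ∀ j, ℕ → X j
  s : ℕ → ℕ → ℝ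
  R : ℝ
  hf : ∀ j i, ‖f j i‖ ≤ s j i
  hx : ∀ j i, ‖x j i‖ ≤ s j i
  hs : ∀ j, Summable (fun i => s j i ^ 2)
  hR : ∀ j, ∑' i, s j i ^ 2 ≤ R
  ht : ∀ j, ∑' i, s j (i + N) ^ 2 ≤ 1 / 8

/-- DE: the nonzero eigenvalues of a compact operator accumulate only at zero -/
def S_DE : Prop :=
  ∀ (X : Type) [NormedAddCommGroup X] [NormedSpace ℂ X] (T : X →L[ℂ] X),
    IsCompactOperator T → ∀ r : ℝ, 0 < r →
    {μ : ℂ | r ≤ ‖μ‖ ∧ ∃ v : X, v ≠ 0 ∧ T v = μ • v}.Finite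

/-- lifts of the vectors and of the functionals of the Hilbert space `H` -/
structure Lif (X : ℕ → Type) [∀ j, NormedAddCommGroup (X j)] [∀ j, NormedSpace ℂ (X j)]
    (U : Ultrafilter ℕ) (Y : Type) [NormedAddCommGroup Y] [NormedSpace ℂ Y] (D : Ult X U Y)
    (H : Type) [NormedAddCommGroup H] [InnerProductSpace ℂ H] (Φ : Y ≃L[ℂ] H) where
  σ : H → lp X ⊤
  τ : H → ∀ j, X j →L[ℂ] ℂ
  hσ : ∀ u, D.π (σ u) = Φ.symm u
  bσ : ∀ u j, ‖σ u j‖ ≤ ‖Φ.symm u‖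
  hτ : ∀ u (x : lp X ⊤), Tendsto (fun j => τ u j (x j)) (U : Filter ℕ)
    (𝓝 (inner ℂ u (Φ (D.π x))))
  bτ : ∀ u, ∃ B : ℝ, ∀ j, ‖τ u j‖ ≤ B

/-- LI: lifts exist -/
def S_LI : Prop :=
  ∀ (X : ℕ → Type) [∀ j, NormedAddCommGroup (X j)] [∀ j, NormedSpace ℂ (X j)]
    (U : Ultrafilter ℕ) (Y : Type) [NormedAddCommGroup Y] [NormedSpace ℂ Y] (D : Ult X U Y)
    (H : Type) [NormedAddCommGroup H] [InnerProductSpace ℂ H] [CompleteSpace H]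
    (Φ : Y ≃L[ℂ] H), Nonempty (Lif X U Y D H Φ)

/-- QB: Bessel inequality for the lifted functionals -/
def S_QB : Prop :=
  ∀ (X : ℕ → Type) [∀ j, NormedAddCommGroup (X j)] [∀ j, NormedSpace ℂ (X j)]
    (U : Ultrafilter ℕ) (Y : Type) [NormedAddCommGroup Y] [NormedSpace ℂ Y] (D : Ult X U Y)
    (H : Type) [NormedAddCommGroup H] [InnerProductSpace ℂ H] (Φ : Y ≃L[ℂ] H)
    (L : Lif X U Y D H Φ) (C C' : ℝ), 0 ≤ C → C < C' → (∀ y, ‖Φ y‖ ≤ C * ‖y‖) →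
    ∀ (m : ℕ) (u : Fin m → H), Orthonormal ℂ u →
    ∀ᶠ j in (U : Filter ℕ), ∀ x : X j, ∑ k, ‖L.τ (u k) j x‖ ^ 2 ≤ C' ^ 2 * ‖x‖ ^ 2

/-- PB: Bessel inequality for the lifted vectors -/
def S_PB : Prop :=
  ∀ (X : ℕ → Type) [∀ j, NormedAddCommGroup (X j)] [∀ j, NormedSpace ℂ (X j)]
    (U : Ultrafilter ℕ) (Y : Type) [NormedAddCommGroup Y] [NormedSpace ℂ Y] (D : Ult X U Y)
    (H : Type) [NormedAddCommGroup H] [InnerProductSpace ℂ H] (Φ : Y ≃L[ℂ] H)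
    (L : Lif X U Y D H Φ) (C' : ℝ), 1 < C' → (∀ y, ‖y‖ ≤ ‖Φ y‖) →
    ∀ (m : ℕ) (u : Fin m → H), Orthonormal ℂ u →
    ∀ᶠ j in (U : Filter ℕ), ∀ g : X j →L[ℂ] ℂ,
      ∑ k, ‖g (L.σ (u k) j)‖ ^ 2 ≤ C' ^ 2 * ‖g‖ ^ 2

/-- PE: the lifted projection is almost contractive up to the part orthogonal to `e` -/
def S_PE : Prop :=
  ∀ (X : ℕ → Type) [∀ j, NormedAddCommGroup (X j)] [∀ j, NormedSpace ℂ (X j)]
    (U : Ultrafilter ℕ) (Y : Type) [NormedAddCommGroup Y] [NormedSpace ℂ Y] (D : Ult X U Y)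
    (H : Type) [NormedAddCommGroup H] [InnerProductSpace ℂ H] [CompleteSpace H] (Φ : Y ≃L[ℂ] H)
    (L : Lif X U Y D H Φ) (δ : ℝ), 0 < δ → (∀ y, ‖y‖ ≤ ‖Φ y‖) →
    ∀ (m : ℕ) (e : Fin m → H), Orthonormal ℂ e →
    ∃ (M : ℕ) (u : Fin M → H), Orthonormal ℂ u ∧ (∀ i k, inner ℂ (e k) (u i) = 0) ∧
      ∀ᶠ j in (U : Filter ℕ), ∀ x : X j,
        ‖∑ k, L.τ (e k) j x • L.σ (e k) j‖ ≤
          (1 + δ) * ‖x‖ + 2 * Real.sqrt (∑ i, ‖L.τ (u i) j x‖ ^ 2)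

/-- EG: a finite-dimensional subspace carries almost all of the energy of the tail -/
def S_EG : Prop :=
  ∀ (X : ℕ → Type) [∀ j, NormedAddCommGroup (X j)] [∀ j, NormedSpace ℂ (X j)]
    (U : Ultrafilter ℕ) (Y : Type) [NormedAddCommGroup Y] [NormedSpace ℂ Y] (D : Ult X U Y)
    (H : Type) [NormedAddCommGroup H] [InnerProductSpace ℂ H] (Φ : Y ≃L[ℂ] H)
    (L : Lif X U Y D H Φ) (C : ℝ) (P : Rep X), (∀ y, ‖y‖ ≤ ‖Φ y‖ ∧ ‖Φ y‖ ≤ C * ‖y‖) →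
    ∀ ε : ℝ, 0 < ε → ∃ E₀ : Submodule ℂ H, FiniteDimensional ℂ E₀ ∧
      ∀ (m : ℕ) (u : Fin m → H), Orthonormal ℂ u → (∀ k, u k ∈ E₀ᗮ) →
        ∀ᶠ j in (U : Filter ℕ),
          ∑' i, ∑ k, (‖P.f j (i + P.N) (L.σ (u k) j)‖ ^ 2 +
            ‖L.τ (u k) j (P.x j (i + P.N))‖ ^ 2) ≤ ε

/-- MT: the main estimate, first part -/
def S_MT : Prop :=
  ∀ (X : ℕ → Type) [∀ j, NormedAddCommGroup (X j)] [∀ j, NormedSpace ℂ (X j)]
    [∀ j, CompleteSpace (X j)]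
    (U : Ultrafilter ℕ) (Y : Type) [NormedAddCommGroup Y] [NormedSpace ℂ Y] (D : Ult X U Y)
    (H : Type) [NormedAddCommGroup H] [InnerProductSpace ℂ H] [CompleteSpace H]
    (Φ : Y ≃L[ℂ] H) (C : ℝ) (P : Rep X) (T : Y →L[ℂ] Y),
    (∀ y, ‖y‖ ≤ ‖Φ y‖ ∧ ‖Φ y‖ ≤ C * ‖y‖) →
    (∀ v w : lp X ⊤, (∀ j, w j = ∑' i, P.f j i (v j) • P.x j i) → T (D.π v) = D.π w) →
    TrTail H ((Φ : Y →L[ℂ] H) ∘L T ∘L (Φ.symm : H →L[ℂ] Y))

/-- MC: the main estimate, second part -/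
def S_MC : Prop :=
  ∀ (X : ℕ → Type) [∀ j, NormedAddCommGroup (X j)] [∀ j, NormedSpace ℂ (X j)]
    [∀ j, CompleteSpace (X j)]
    (U : Ultrafilter ℕ) (Y : Type) [NormedAddCommGroup Y] [NormedSpace ℂ Y] (D : Ult X U Y)
    (H : Type) [NormedAddCommGroup H] [InnerProductSpace ℂ H] [CompleteSpace H]
    (Φ : Y ≃L[ℂ] H) (C : ℝ) (P : Rep X) (T : Y →L[ℂ] Y),
    (∀ y, ‖y‖ ≤ ‖Φ y‖ ∧ ‖Φ y‖ ≤ C * ‖y‖) →
    (∀ v w : lp X ⊤, (∀ j, w j = ∑' i, P.f j i (v j) • P.x j i) → T (D.π v) = D.π w) →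
    (∀ j, 1 / 2 ≤ ‖∑ i ∈ Finset.range P.N, P.f j i (P.x j i)‖) →
    ∃ E₀ : Submodule ℂ H, FiniteDimensional ℂ E₀ ∧ ∀ (m : ℕ) (e : Fin m → H), Orthonormal ℂ e →
      E₀ ≤ Submodule.span ℂ (Set.range e) →
      1 / 3 ≤ ‖∑ k, inner ℂ (e k) (((Φ : Y →L[ℂ] H) ∘L T ∘L (Φ.symm : H →L[ℂ] Y)) (e k))‖

/-- NU: nuclear representations define compact operators -/
def S_NU : Prop :=
  ∀ (X : Type) [NormedAddCommGroup X] [NormedSpace ℂ X] [CompleteSpace X]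
    (f : ℕ → X →L[ℂ] ℂ) (x : ℕ → X), Summable (fun i => ‖f i‖ * ‖x i‖) →
    ∃ T : X →L[ℂ] X, (∀ v, T v = ∑' i, f i v • x i) ∧ ‖T‖ ≤ ∑' i, ‖f i‖ * ‖x i‖ ∧
      IsCompactOperator T

/-- UL: the uniform lemma -/
def S_UL : Prop :=
  ∀ C : ℕ, ∃ g : ℕ, ∀ (X : Type) [NormedAddCommGroup X] [NormedSpace ℂ X] [CompleteSpace X],
    DLe X g C → ∀ (f : ℕ → X →L[ℂ] ℂ) (x : ℕ → X), Summable (fun i => ‖f i‖ * ‖x i‖) →
    ∑' i, ‖f i‖ * ‖x i‖ ≤ C → ∑' i, ‖f (i + C)‖ * ‖x (i + C)‖ ≤ 1 / 8 →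
    (∀ T : X →L[ℂ] X, (∀ v, T v = ∑' i, f i v • x i) → NoEig X T) →
    ‖∑ i ∈ Finset.range C, f i (x i)‖ < 1 / 2

/-- TR: traces of nuclear operators without nonzero eigenvalues vanish under slow growth -/
def S_TR : Prop :=
  ∃ φ : ℕ → ℝ, Tendsto φ atTop atTop ∧
    ∀ (X : Type) [NormedAddCommGroup X] [NormedSpace ℂ X] [CompleteSpace X],
      (∃ᶠ n in atTop, DLe X n (φ n)) →
      ∀ (f : ℕ → X →L[ℂ] ℂ) (x : ℕ → X), Summable (fun i => ‖f i‖ * ‖x i‖) →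
        (∀ T : X →L[ℂ] X, (∀ v, T v = ∑' i, f i v • x i) → NoEig X T) →
        ∑' i, f i (x i) = 0

/-- RZ: Riesz decomposition for compact operators -/
def S_RZ : Prop :=
  ∀ (X : Type) [NormedAddCommGroup X] [NormedSpace ℂ X] [CompleteSpace X] (T : X →L[ℂ] X),
    IsCompactOperator T → ∀ μ : ℂ, μ ≠ 0 →
      FiniteDimensional ℂ (Module.End.maxGenEigenspace (T : X →ₗ[ℂ] X) μ) ∧
      ∃ p : ℕ, ∀ v : X, ∃ w : X,
        (((T : X →ₗ[ℂ] X) - algebraMap ℂ (Module.End ℂ X) μ) ^ p)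
          (v - (((T : X →ₗ[ℂ] X) - algebraMap ℂ (Module.End ℂ X) μ) ^ p) w) = 0

/-- a triangular sequence of generalised eigenvectors exhausting all nonzero eigenvalues -/
structure Flag (X : Type) [NormedAddCommGroup X] [NormedSpace ℂ X] (T : X →L[ℂ] X) where
  lam : ℕ → ℂ
  w : ℕ → X
  tri : ∀ k, T (w k) - lam k • w k ∈ Submodule.span ℂ (w '' {l | l < k})
  ind : ∀ k, w k ∈ Submodule.span ℂ (w '' {l | l < k}) → w k = 0 ∧ lam k = 0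
  gen : ∀ μ : ℂ, μ ≠ 0 → Module.End.maxGenEigenspace (T : X →ₗ[ℂ] X) μ ≤
    Submodule.span ℂ (Set.range w)

/-- FL: the flag exists, and its diagonal has the right sum -/
def S_FL : Prop :=
  ∀ (X : Type) [NormedAddCommGroup X] [NormedSpace ℂ X] (T : X →L[ℂ] X),
    (∀ μ : ℂ, μ ≠ 0 → FiniteDimensional ℂ (Module.End.maxGenEigenspace (T : X →ₗ[ℂ] X) μ)) →
    Summable (fun μ : ℂ =>
      (finrank ℂ (Module.End.maxGenEigenspace (T : X →ₗ[ℂ] X) μ) : ℝ) * ‖μ‖) →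
    ∃ F : Flag X T, Summable (fun k => ‖F.lam k‖) ∧
      ∑' k, F.lam k = ∑' μ : ℂ,
        (finrank ℂ (Module.End.maxGenEigenspace (T : X →ₗ[ℂ] X) μ) : ℂ) * μ

/-- BI: biorthogonal system along a flag -/
def S_BI : Prop :=
  ∀ (X : Type) [NormedAddCommGroup X] [NormedSpace ℂ X] (T : X →L[ℂ] X) (F : Flag X T),
    ∃ (e : ℕ → X) (es : ℕ → X →L[ℂ] ℂ), (∀ k, ‖e k‖ ≤ 1) ∧ (∀ k, ‖es k‖ ≤ 2) ∧
      (∀ k, e k ∈ Submodule.span ℂ (F.w '' {l | l ≤ k})) ∧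
      (∀ k l, l < k → es k (F.w l) = 0) ∧
      (∀ k, F.w k - es k (F.w k) • e k ∈ Submodule.span ℂ (F.w '' {l | l < k})) ∧
      (∀ k, F.w k ≠ 0 → es k (e k) = 1)

/-- NE: the corrected operator has no nonzero eigenvalue -/
def S_NE : Prop :=
  ∀ (X : Type) [NormedAddCommGroup X] [NormedSpace ℂ X] [CompleteSpace X] (T : X →L[ℂ] X)
    (F : Flag X T) (e : ℕ → X) (es : ℕ → X →L[ℂ] ℂ) (T' : X →L[ℂ] X),
    IsCompactOperator T → Summable (fun k => ‖F.lam k‖) →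
    (∀ k, ‖e k‖ ≤ 1) → (∀ k, ‖es k‖ ≤ 2) →
    (∀ k, e k ∈ Submodule.span ℂ (F.w '' {l | l ≤ k})) →
    (∀ k l, l < k → es k (F.w l) = 0) →
    (∀ k, F.w k - es k (F.w k) • e k ∈ Submodule.span ℂ (F.w '' {l | l < k})) →
    (∀ k, F.w k ≠ 0 → es k (e k) = 1) →
    (∀ v, T' v = T v - ∑' k, (F.lam k * es k v) • e k) → NoEig X T'

/-- RD: reduction of the trace formula to operators without nonzero eigenvalues -/
def S_RD : Prop :=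
  ∀ (X : Type) [NormedAddCommGroup X] [NormedSpace ℂ X] [CompleteSpace X]
    (f : ℕ → X →L[ℂ] ℂ) (x : ℕ → X) (T : X →L[ℂ] X), Summable (fun i => ‖f i‖ * ‖x i‖) →
    (∀ v, T v = ∑' i, f i v • x i) →
    Summable (fun μ : ℂ =>
      (finrank ℂ (Module.End.maxGenEigenspace (T : X →ₗ[ℂ] X) μ) : ℝ) * ‖μ‖) →
    ∃ (f' : ℕ → X →L[ℂ] ℂ) (x' : ℕ → X), Summable (fun i => ‖f' i‖ * ‖x' i‖) ∧
      (∀ T' : X →L[ℂ] X, (∀ v, T' v = ∑' i, f' i v • x' i) → NoEig X T') ∧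
      ∑' i, f' i (x' i) = ∑' i, f i (x i) - ∑' μ : ℂ,
        (finrank ℂ (Module.End.maxGenEigenspace (T : X →ₗ[ℂ] X) μ) : ℂ) * μ

/-- the approximation property -/
def AP (X : Type) [NormedAddCommGroup X] [NormedSpace ℂ X] : Prop :=
  ∀ K : Set X, IsCompact K → ∀ ε : ℝ, 0 < ε →
    ∃ S : X →L[ℂ] X, FiniteDimensional ℂ (LinearMap.range (S : X →ₗ[ℂ] X)) ∧
      ∀ x ∈ K, ‖S x - x‖ < ε

/-- the trace formula for nuclear operators with summable eigenvalues -/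
def TF (X : Type) [NormedAddCommGroup X] [NormedSpace ℂ X] : Prop :=
  ∀ (f : ℕ → X →L[ℂ] ℂ) (x : ℕ → X) (T : X →L[ℂ] X),
    Summable (fun i => ‖f i‖ * ‖x i‖) →
    (∀ y, T y = ∑' i, f i y • x i) →
    Summable (fun μ : ℂ =>
      (Module.finrank ℂ (Module.End.maxGenEigenspace (T : X →ₗ[ℂ] X) μ) : ℝ) * ‖μ‖) →
    ∑' i, f i (x i) =
      ∑' μ : ℂ, (Module.finrank ℂ (Module.End.maxGenEigenspace (T : X →ₗ[ℂ] X) μ) : ℂ) * μ

/-- NS: a compact set lies in the closed absolutely convex hull of a null sequence -/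
def S_NS : Prop :=
  ∀ (X : Type) [NormedAddCommGroup X] [NormedSpace ℂ X] [CompleteSpace X] (K : Set X),
    IsCompact K → ∃ z : ℕ → X, Tendsto z atTop (𝓝 0) ∧
      ∀ x ∈ K, ∃ a : ℕ → ℂ, Summable (fun n => ‖a n‖) ∧ ∑' n, ‖a n‖ ≤ 1 ∧ x = ∑' n, a n • z n

/-- AP: the approximation property from the vanishing of traces -/
def S_AP : Prop :=
  ∀ (X : Type) [NormedAddCommGroup X] [NormedSpace ℂ X] [CompleteSpace X],
    (∀ (f : ℕ → X →L[ℂ] ℂ) (x : ℕ → X), Summable (fun i => ‖f i‖ * ‖x i‖) →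
      (∀ v, ∑' i, f i v • x i = 0) → ∑' i, f i (x i) = 0) → AP X

/-- SB: passage to subspaces -/
def S_SB : Prop :=
  ∀ (X : Type) [NormedAddCommGroup X] [NormedSpace ℂ X] (n : ℕ) (C : ℝ), DLe X n C →
    ∀ Y : Submodule ℂ X, DLe Y n C

/-- QU: passage to quotients -/
def S_QU : Prop :=
  ∃ ψ : ℕ → ℕ, ∀ (X : Type) [NormedAddCommGroup X] [NormedSpace ℂ X] (n : ℕ) (C : ℝ),
    DLe X (ψ n) C → ∀ (Y : Submodule ℂ X) [IsClosed (Y : Set X)], DLe (X ⧸ Y) n (2 * C)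

/-- EX: non-Hilbertian spaces with slow growth exist -/
def S_EX : Prop :=
  ∀ φ : ℕ → ℝ, Tendsto φ atTop atTop →
    ∃ (X : Type) (_ : NormedAddCommGroup X) (_ : NormedSpace ℂ X) (_ : CompleteSpace X),
      (∀ᶠ n in atTop, DLe X n (φ n)) ∧
      ∀ (H : Type) [NormedAddCommGroup H] [InnerProductSpace ℂ H], IsEmpty (X ≃L[ℂ] H)

/-- EQ: an equivalent parallelogram norm on a finite-dimensional space gives `Euc` -/
def S_EQ : Prop :=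
  ∀ (X : Type) [NormedAddCommGroup X] [NormedSpace ℂ X] (E : Submodule ℂ X)
    [FiniteDimensional ℂ E] (C : ℝ) (N : E → ℝ),
    (∀ y, ‖y‖ ≤ N y ∧ N y ≤ C * ‖y‖) → (∀ y z, N (y + z) ≤ N y + N z) →
    (∀ (a : ℂ) y, N (a • y) = ‖a‖ * N y) →
    (∀ y z, N (y + z) * N (y + z) + N (y - z) * N (y - z) = 2 * (N y * N y + N z * N z)) →
    0 ≤ C → Euc X E C

end Pool.Agent.Helper25.LS
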