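import Pool.Agent.Helper25.LS.Main
import Pool.Agent.Helper25.LS.UL
import Pool.Agent.Helper25.LS.OP
import Pool.Agent.Helper10.LS.LP
import Pool.Agent.Helper11.LS.RD
import Pool.Agent.Helper12.LS.DE
import Pool.Agent.Helper15.LS.BK
import Pool.Agent.Helper15.LS.LI
import Pool.Agent.Helper16.LS.EG
import Pool.Agent.Helper17.LS.UP
import Pool.Agent.Helper2.LS.L2
import Pool.Agent.Helper20.LS.RZ
import Pool.Agent.Helper3.LS.SU
import Pool.Agent.Helper30.LS.MT
import Pool.Agent.Helper31.LS.NO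
import Pool.Agent.Helper32.LS.DB
import Pool.Agent.Helper32.LS.PE
import Pool.Agent.Helper35.LS.HL
import Pool.Agent.Helper35.LS.NE
import Pool.Agent.Helper40.LS.MC
import Pool.Agent.Helper42.LS.FL
import Pool.Agent.Helper46.LS.AP
import Pool.Agent.Helper46.LS.NU
import Pool.Agent.Helper48.LS.EI
import Pool.Agent.Helper50.LS.BC
import Pool.Agent.Helper51.LS.TC
import Pool.Agent.Helper56.LS.FD
import Pool.Agent.Helper58.LS.QB
import Pool.Agent.Helper59.LS.EN
import Pool.Agent.Helper60.LS.EQ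
import Pool.Agent.Helper61.LS.HI
import Pool.Agent.Helper61.LS.LF
import Pool.Agent.Helper63.LS.NS
import Pool.Agent.Helper63.LS.SP
import Pool.Agent.Helper69.LS.LV
import Pool.Agent.Helper7.LS.PB
import Pool.Agent.Helper79.LS.QU
import Pool.Agent.Helper84.LS.OT
import Pool.Agent.Helper86.LS.PC
import Pool.Agent.Helper90.LS.HA
import Pool.Agent.Helper94.LS.EX
import Pool.Agent.Helper94.LS.SB
import Pool.Agent.Helper96.LS.BI
import Pool.Agent.Helper96.LS.NH

set_option autoImplicit false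

noncomputable section

namespace Pool.Agent.Helper25.LS

theorem h_up : S_UP := Pool.Agent.Helper17.LS.up
theorem h_lv : S_LV := Pool.Agent.Helper69.LS.lv
theorem h_en : S_EN := Pool.Agent.Helper59.LS.en
theorem h_hi : S_HI := Pool.Agent.Helper61.LS.hi
theorem h_lf : S_LF := Pool.Agent.Helper61.LS.lf
theorem h_fd : S_FD := Pool.Agent.Helper56.LS.fd
theorem h_no : S_NO := Pool.Agent.Helper31.LS.no
theorem h_su : S_SU := Pool.Agent.Helper3.LS.su
theorem h_tc : S_TC := Pool.Agent.Helper51.LS.tc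
theorem h_sp : S_SP := Pool.Agent.Helper63.LS.sp
theorem h_ha : S_HA := Pool.Agent.Helper90.LS.ha
theorem h_db : S_DB := Pool.Agent.Helper32.LS.db h_ha
theorem h_bc : S_BC := Pool.Agent.Helper50.LS.bc
theorem h_hl : S_HL := Pool.Agent.Helper35.LS.hl h_tc h_sp h_db h_bc
theorem h_ot : S_OT := Pool.Agent.Helper84.LS.ot
theorem h_de : S_DE := Pool.Agent.Helper12.LS.de
theorem h_ei : S_EI := Pool.Agent.Helper48.LS.ei h_de
theorem h_qb : S_QB := Pool.Agent.Helper58.LS.qb op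
theorem h_pb : S_PB := Pool.Agent.Helper7.LS.pb h_fd
theorem h_pe : S_PE := Pool.Agent.Helper32.LS.pe h_lf op h_fd h_no
theorem h_eg : S_EG := Pool.Agent.Helper16.LS.eg h_su h_qb h_pb
theorem h_li : S_LI := Pool.Agent.Helper15.LS.li h_lv h_lf
theorem h_mt : S_MT := Pool.Agent.Helper30.LS.mt h_li h_eg h_qb
theorem h_mc : S_MC := Pool.Agent.Helper40.LS.mc h_li h_eg h_pe
theorem h_nu : S_NU := Pool.Agent.Helper46.LS.nu
theorem h_ul : S_UL := ul h_up h_en h_hi h_ot h_ei h_tc h_hl h_mt h_mc h_nu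
theorem h_tr : S_TR := tr h_ul
theorem h_rz : S_RZ := Pool.Agent.Helper20.LS.rz
theorem h_fl : S_FL := Pool.Agent.Helper42.LS.fl
theorem h_bi : S_BI := Pool.Agent.Helper96.LS.bi
theorem h_ne : S_NE := Pool.Agent.Helper35.LS.ne h_rz
theorem h_rd : S_RD := Pool.Agent.Helper11.LS.rd h_nu h_rz h_fl h_bi h_ne
theorem h_ns : S_NS := Pool.Agent.Helper63.LS.ns
theorem h_ap : S_AP := Pool.Agent.Helper46.LS.ap h_ns
theorem h_sb : S_SB := Pool.Agent.Helper94.LS.sb
theorem h_eq : S_EQ := Pool.Agent.Helper60.LS.eq h_hi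
theorem h_qu : S_QU := Pool.Agent.Helper79.LS.qu h_eq
theorem h_pc : S_PC := Pool.Agent.Helper86.LS.pc h_hi h_fd
theorem h_lp : S_LP := Pool.Agent.Helper10.LS.lp
theorem h_bk : S_BK := Pool.Agent.Helper15.LS.bk h_eq
theorem h_l2 : S_L2 := Pool.Agent.Helper2.LS.l2 h_eq
theorem h_nh : S_NH := Pool.Agent.Helper96.LS.nh
theorem h_ex : S_EX := Pool.Agent.Helper94.LS.ex h_pc h_lp h_bk h_l2 h_nh
theorem h_sg : S_SG := sg h_tr h_rd h_ap h_sb h_qu h_ex

end Pool.Agent.Helper25.LS
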