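import Pool.Agent.Helper25.LS.Defs

/-!
# Project LS, second part: non-Hilbertian examples with slow growth
-/

set_option autoImplicit false

open Filter Topology Module
open scoped ENNReal NNReal

noncomputable section

namespace Pool.Agent.Helper25.LS

/-- parallelogram defect at most `δ` -/
def PD (B : Type) [NormedAddCommGroup B] (δ : ℝ) : Prop :=
  ∀ x y : B, |‖x + y‖ ^ 2 + ‖x - y‖ ^ 2 - 2 * ‖x‖ ^ 2 - 2 * ‖y‖ ^ 2| ≤
    δ * (‖x‖ ^ 2 + ‖y‖ ^ 2)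

/-- PC: a small parallelogram defect implies a small Euclidean distance in low dimensions -/
def S_PC : Prop :=
  ∀ m : ℕ, ∃ δ : ℝ, 0 < δ ∧
    ∀ (B : Type) [NormedAddCommGroup B] [NormedSpace ℂ B], PD B δ → DLe B m 2

instance factTwoAdd (t : ℝ≥0) : Fact ((1 : ℝ≥0∞) ≤ 2 + (t : ℝ≥0∞)) :=
  ⟨le_trans (by norm_num) (le_self_add)⟩

/-- the space of dimension `N` with the norm of exponent `2 + t` -/
abbrev Blk (t : ℝ≥0) (N : ℕ) : Type := PiLp (2 + (t : ℝ≥0∞)) (fun _ : Fin N => ℂ)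

/-- LP: the parallelogram defect of `Blk t N` tends to zero with `t`, uniformly in `N` -/
def S_LP : Prop :=
  ∀ δ : ℝ, 0 < δ → ∃ t₀ : ℝ≥0, 0 < t₀ ∧ ∀ (t : ℝ≥0) (N : ℕ), t ≤ t₀ → PD (Blk t N) δ

/-- BK: the Euclidean distance of all subspaces of `Blk t N` -/
def S_BK : Prop :=
  ∀ (t : ℝ≥0) (N n : ℕ), 1 ≤ N → DLe (Blk t N) n ((N : ℝ) ^ (1 / 2 - 1 / (2 + (t : ℝ))))

/-- L2: Euclidean distances in a Hilbert sum -/
def S_L2 : Prop :=
  ∀ (B : ℕ → Type) [∀ k, NormedAddCommGroup (B k)] [∀ k, NormedSpace ℂ (B k)] (n : ℕ) (C : ℝ),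
    0 ≤ C → (∀ k, DLe (B k) n C) → DLe (lp B 2) n C

/-- NH: a Hilbert sum of blocks with unbounded distances is not isomorphic to a Hilbert space -/
def S_NH : Prop :=
  ∀ (t : ℕ → ℝ≥0) (N : ℕ → ℕ), (∀ k, 1 ≤ N k) →
    (∀ k : ℕ, (k : ℝ) ≤ (N k : ℝ) ^ (1 / 2 - 1 / (2 + (t k : ℝ)))) →
    ∀ (H : Type) [NormedAddCommGroup H] [InnerProductSpace ℂ H],
      IsEmpty (lp (fun k => Blk (t k) (N k)) 2 ≃L[ℂ] H)

end Pool.Agent.Helper25.LS
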