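import Pool.Agent.Helper25.LS.Defs

set_option autoImplicit false

open Filter Topology Module

noncomputable section

namespace Pool.Agent.Helper25.LS

theorem DLe.mono {X : Type} [NormedAddCommGroup X] [NormedSpace ℂ X] {m n : ℕ} {C : ℝ}
    (h : DLe X n C) (hmn : m ≤ n) : DLe X m C :=
  fun E hE hd => h E hE (hd.trans hmn)

theorem DLe.mono_right {X : Type} [NormedAddCommGroup X] [NormedSpace ℂ X] {n : ℕ} {C C' : ℝ}
    (h : DLe X n C) (hC : C ≤ C') : DLe X n C' := by
  intro E hE hd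
  obtain ⟨m, u, hu⟩ := h E hE hd
  exact ⟨m, u, hu.trans hC⟩

/-- inverse function of a function `g` -/
theorem exists_inverse (g : ℕ → ℕ) : ∃ φ : ℕ → ℕ, Tendsto φ atTop atTop ∧
    ∀ᶠ n in atTop, g (φ n) ≤ n := by
  set G : ℕ → ℕ := fun C => (∑ c ∈ Finset.range (C + 1), g c) + C with hG
  have hgG : ∀ C, g C ≤ G C := by
    intro C
    have : g C ≤ ∑ c ∈ Finset.range (C + 1), g c :=
      Finset.single_le_sum (f := g) (fun _ _ => Nat.zero_le _) (Finset.mem_range.2 (Nat.lt_succ_self C))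
    exact this.trans (Nat.le_add_right _ _)
  have hCG : ∀ C, C ≤ G C := fun C => Nat.le_add_left _ _
  refine ⟨fun n => Nat.findGreatest (fun C => G C ≤ n) n, ?_, ?_⟩
  · rw [tendsto_atTop_atTop]
    intro C
    refine ⟨G C, fun n hn => ?_⟩
    exact Nat.le_findGreatest ((hCG C).trans hn) hn
  · filter_upwards [eventually_ge_atTop (G 0)] with n hn
    have := Nat.findGreatest_spec (P := fun C => G C ≤ n) (Nat.zero_le n) hn
    exact (hgG _).trans this

/-- TR from UL -/
theorem tr (hUL : S_UL) : S_TR := by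
  choose g hg using hUL
  obtain ⟨φ, hφ, hgφ⟩ := exists_inverse g
  refine ⟨fun n => (φ n : ℝ), tendsto_natCast_atTop_atTop.comp hφ, ?_⟩
  intro X _ _ _ hX f x hs hT
  by_contra hne
  set t : ℂ := ∑' i, f i (x i) with ht
  set f' : ℕ → X →L[ℂ] ℂ := fun i => t⁻¹ • f i with hf'
  have hs' : Summable (fun i => ‖f' i‖ * ‖x i‖) := by
    have : (fun i => ‖f' i‖ * ‖x i‖) = fun i => ‖t⁻¹‖ * (‖f i‖ * ‖x i‖) := by
      funext i
      simp only [hf', norm_smul]
      ring
    rw [this]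
    exact hs.mul_left _
  have hT' : ∀ T' : X →L[ℂ] X, (∀ v, T' v = ∑' i, f' i v • x i) → NoEig X T' := by
    intro T' hT'
    have h1 : NoEig X (t • T') := by
      apply hT
      intro v
      rw [_root_.smul_apply, hT' v]
      rw [← tsum_const_smul'']
      congr 1
      funext i
      simp only [hf', _root_.smul_apply, smul_smul, smul_eq_mul]
      congr 1
      field_simp
    intro μ v hμ hv
    refine h1 (t * μ) v (mul_ne_zero hne hμ) ?_
    rw [_root_.smul_apply, hv, smul_smul]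
  have hsum : Summable (fun i => f' i (x i)) := by
    refine Summable.of_norm_bounded hs' (fun i => (f' i).le_opNorm (x i))
  have htot : ∑' i, f' i (x i) = 1 := by
    have : (fun i => f' i (x i)) = fun i => t⁻¹ * f i (x i) := by
      funext i
      simp only [hf', _root_.smul_apply, smul_eq_mul]
    rw [this, tsum_mul_left, ← ht, inv_mul_cancel₀ hne]
  have h1 : Tendsto (fun n => ∑ i ∈ Finset.range n, f' i (x i)) atTop (𝓝 1) := by
    rw [← htot]
    exact hsum.hasSum.tendsto_sum_nat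
  have h2 : Tendsto (fun n => ∑' i, ‖f' (i + n)‖ * ‖x (i + n)‖) atTop (𝓝 0) :=
    tendsto_sum_nat_add (fun i => ‖f' i‖ * ‖x i‖)
  have e1 : ∀ᶠ n in atTop, 1 / 2 < ‖∑ i ∈ Finset.range n, f' i (x i)‖ := by
    have : Tendsto (fun n => ‖∑ i ∈ Finset.range n, f' i (x i)‖) atTop (𝓝 ‖(1:ℂ)‖) := h1.norm
    rw [norm_one] at this
    exact this.eventually (lt_mem_nhds (by norm_num))
  have e2 : ∀ᶠ n in atTop, ∑' i, ‖f' (i + n)‖ * ‖x (i + n)‖ ≤ 1 / 8 := by
    filter_upwards [h2.eventually (gt_mem_nhds (show (0:ℝ) < 1 / 8 by norm_num))] with n hn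
    exact hn.le
  have e3 : ∀ᶠ n : ℕ in atTop, ∑' i, ‖f' i‖ * ‖x i‖ ≤ (n : ℝ) :=
    tendsto_natCast_atTop_atTop.eventually (eventually_ge_atTop _)
  have e123 := hφ.eventually (e1.and (e2.and e3))
  obtain ⟨n, hn, hgn, h1n, h2n, h3n⟩ := (hX.and_eventually (hgφ.and e123)).exists
  have := hg (φ n) X (hn.mono hgn) f' x hs' h3n h2n hT'
  exact absurd this (not_lt.2 h1n.le)

end Pool.Agent.Helper25.LS
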