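import Pool.Agent.Helper25.LS.Defs2
import Pool.Agent.Helper25.LS.TR

set_option autoImplicit false

open Filter Topology Module

noncomputable section

namespace Pool.Agent.Helper25.LS

/-- the class of spaces of slow growth with respect to `φ` -/
def Slow (φ : ℕ → ℝ) (X : Type) [NormedAddCommGroup X] [NormedSpace ℂ X] : Prop :=
  ∃ᶠ n in atTop, DLe X n (φ n)

/-- the final goal -/
def S_SG : Prop :=
  ∃ φ : ℕ → ℝ, Tendsto φ atTop atTop ∧
    (∀ (X : Type) [NormedAddCommGroup X] [NormedSpace ℂ X] [CompleteSpace X], Slow φ X →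
      (AP X ∧ TF X) ∧
      ∀ Y : Submodule ℂ X, IsClosed (Y : Set X) → (AP Y ∧ TF Y) ∧
        ∀ (Z : Submodule ℂ Y) [IsClosed (Z : Set Y)], AP (Y ⧸ Z) ∧ TF (Y ⧸ Z)) ∧
    ∃ (X : Type) (_ : NormedAddCommGroup X) (_ : NormedSpace ℂ X) (_ : CompleteSpace X),
      (∀ᶠ n in atTop, DLe X n (φ n)) ∧
      ∀ (H : Type) [NormedAddCommGroup H] [InnerProductSpace ℂ H], IsEmpty (X ≃L[ℂ] H)

/-- the Lidskii property for one space from the vanishing of traces -/
theorem lidskii_of_trace (hRD : S_RD) (hAP : S_AP) (X : Type) [NormedAddCommGroup X]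
    [NormedSpace ℂ X] [CompleteSpace X]
    (h : ∀ (f : ℕ → X →L[ℂ] ℂ) (x : ℕ → X), Summable (fun i => ‖f i‖ * ‖x i‖) →
        (∀ T : X →L[ℂ] X, (∀ v, T v = ∑' i, f i v • x i) → NoEig X T) →
        ∑' i, f i (x i) = 0) : AP X ∧ TF X := by
  constructor
  · apply hAP X
    intro f x hs h0
    apply h f x hs
    intro T hT μ v hμ hv
    rw [hT v, h0 v] at hv
    exact (smul_eq_zero.1 hv.symm).resolve_left hμ
  · intro f x T hs hT hsum
    obtain ⟨f', x', hs', hne, htr⟩ := hRD X f x T hs hT hsum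
    have := h f' x' hs' hne
    rw [this] at htr
    exact (sub_eq_zero.1 htr.symm)

theorem sg (hTR : S_TR) (hRD : S_RD) (hAP : S_AP) (hSB : S_SB) (hQU : S_QU) (hEX : S_EX) :
    S_SG := by
  obtain ⟨φ₀, hφ₀, h0⟩ := hTR
  obtain ⟨ψ, hψ⟩ := hQU
  obtain ⟨χ, hχ, hψχ⟩ := exists_inverse ψ
  set φ : ℕ → ℝ := fun n => min (φ₀ n) (φ₀ (χ n) / 2) with hφ
  have hφlim : Tendsto φ atTop atTop := by
    have h2 : Tendsto (fun n => φ₀ (χ n) / 2) atTop atTop :=
      (hφ₀.comp hχ).atTop_div_const (by norm_num)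
    rw [tendsto_atTop]
    intro b
    filter_upwards [hφ₀.eventually (eventually_ge_atTop b), h2.eventually (eventually_ge_atTop b)]
      with n h3 h4
    exact le_min h3 h4
  have good : ∀ (X : Type) [NormedAddCommGroup X] [NormedSpace ℂ X] [CompleteSpace X],
      Slow φ X → AP X ∧ TF X := by
    intro X _ _ _ hX
    apply lidskii_of_trace hRD hAP X
    apply h0 X
    exact hX.mono fun n hn => hn.mono_right (min_le_left _ _)
  have goodq : ∀ (X : Type) [NormedAddCommGroup X] [NormedSpace ℂ X] [CompleteSpace X],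
      Slow φ X → ∀ (Z : Submodule ℂ X) [IsClosed (Z : Set X)], AP (X ⧸ Z) ∧ TF (X ⧸ Z) := by
    intro X _ _ _ hX Z hZ
    apply lidskii_of_trace hRD hAP (X ⧸ Z)
    apply h0 (X ⧸ Z)
    have h1 : ∃ᶠ n in atTop, DLe (X ⧸ Z) (χ n) (φ₀ (χ n)) := by
      apply (hX.and_eventually hψχ).mono
      rintro n ⟨hn, hn2⟩
      have h2 : DLe X (ψ (χ n)) (φ₀ (χ n) / 2) := (hn.mono_right (min_le_right _ _)).mono hn2
      have h3 := hψ X (χ n) _ h2 Z
      have h4 : 2 * (φ₀ (χ n) / 2) = φ₀ (χ n) := by ring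
      rwa [h4] at h3
    exact hχ.frequently h1
  refine ⟨φ, hφlim, ?_, ?_⟩
  · intro X _ _ _ hX
    refine ⟨good X hX, ?_⟩
    intro Y hY
    have : CompleteSpace Y := hY.completeSpace_coe
    have hSY : Slow φ Y := hX.mono fun n hn => hSB X n _ hn Y
    exact ⟨good Y hSY, fun Z _ => goodq Y hSY Z⟩
  · exact hEX φ hφlim

end Pool.Agent.Helper25.LS
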